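import Pool.Agent.H82.NTC.Pot

set_option autoImplicit false

namespace Pool.NTC

open Pool.NET

theorem pwt_col (S a b : ℤ) (hS : 0 < S) : a = b ∨ S * a + S ≤ S * b ∨ S * b + S ≤ S * a := by
  rcases lt_trichotomy a b with h | h | h
  · right; left
    have : S * (a + 1) ≤ S * b := mul_le_mul_of_nonneg_left (by omega) hS.le
    linarith [mul_add S a 1, mul_one S]
  · left; exact h
  · right; right
    have : S * (b + 1) ≤ S * a := mul_le_mul_of_nonneg_left (by omega) hS.le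
    linarith [mul_add S b 1, mul_one S]

theorem pwt_thm : PWk Ke.T := by
  intro p e g e' g' h u h1 h2 hrel tt htt v a s hs0 hsq hlt
  obtain ⟨w, k⟩ := a
  obtain ⟨q0, gq, gW, We, eM, MS⟩ := h1
  obtain ⟨-, gq', gW', We', eM', -⟩ := h2
  have hS : 0 < p.S := by omega
  have hpv : pv2 h u (v, Ke.T) = (v, Ke.J1) := rfl
  rw [hpv] at hlt ⊢
  obtain ⟨ht0, htq⟩ := htt (v, Ke.J1)
  generalize tt (v, Ke.J1) = t at *
  have hpr : prW p e h u tt (v, Ke.T) = 2 * ((p.S * v.2 + e) + (p.S * v.2 + 2 * e) - 2 * p.q) + 1 := rfl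
  rw [hpr] at hlt
  have hfy : fy p e (v, Ke.J1) = p.S * v.2 + e := rfl
  rw [hfy] at hlt
  have hcol := pwt_col p.S v.2 w.2 hS
  unfold Rel at hrel
  rcases hcol with hc | hc | hc
  · have hAB : p.S * w.2 = p.S * v.2 := by rw [hc]
    cases k <;> simp only [fy, hAB] at hlt <;> simp only [lvW, sgW] <;>
      generalize p.S * v.2 = A at * <;> generalize p.S * w.2 = B at * <;>
      rcases abs_cases (2 * ((A + e) + (A + 2 * e) - 2 * p.q) + 1 - 4 * (A + e + t)) with ⟨h3, h4⟩ | ⟨h3, h4⟩ <;>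
      rw [h3] at hlt <;> rw [abs_lt] at hlt <;> omega
  · cases k <;> simp only [fy] at hlt <;> simp only [lvW, sgW] <;>
      generalize p.S * v.2 = A at * <;> generalize p.S * w.2 = B at * <;>
      rcases abs_cases (2 * ((A + e) + (A + 2 * e) - 2 * p.q) + 1 - 4 * (A + e + t)) with ⟨h3, h4⟩ | ⟨h3, h4⟩ <;>
      rw [h3] at hlt <;> rw [abs_lt] at hlt <;> omega
  · cases k <;> simp only [fy] at hlt <;> simp only [lvW, sgW] <;>
      generalize p.S * v.2 = A at * <;> generalize p.S * w.2 = B at * <;>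
      rcases abs_cases (2 * ((A + e) + (A + 2 * e) - 2 * p.q) + 1 - 4 * (A + e + t)) with ⟨h3, h4⟩ | ⟨h3, h4⟩ <;>
      rw [h3] at hlt <;> rw [abs_lt] at hlt <;> omega

end Pool.NTC
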